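import Pool.Agent.Helper82_NIB.Stmts

/-!
# NIB, module IND
-/

set_option autoImplicit false

open Finset

namespace Pool.Agent.NIB.H18

open Pool.Agent.NIB

/-- module IND -/
theorem ind (h1 : CondStmt) : IndStmt := by
  intro I α _ _ _ _ wt f Vr B L hwt hf0 hfB hB hL hV
  rcases hB.eq_or_lt with hB0 | hBp
  · -- `B = 0`
    have hf : ∀ i s, f i s = 0 := fun i s => le_antisymm (hB0 ▸ hfB i s) (hf0 i s)
    have he : {ω : I → α | 2 * √(L * Vr) + 4 * L * B <
        |∑ i, f i (ω i) - ∑ i, ∑ s, wt i s * f i s|} = ∅ := by
      ext ω
      simp only [hf, mul_zero, sum_const_zero, sub_zero, abs_zero, Set.mem_ofPred_eq,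
        Set.mem_empty_iff_false, iff_false, not_lt]
      positivity
    rw [he]
    have : Pr wt (∅ : Set (I → α)) = 0 := by
      simp [Pr, Ex]
    rw [this]
    positivity
  · set m : I → ℝ := fun i => ∑ s, wt i s * f i s with hm
    have hm0 : ∀ i, 0 ≤ m i := fun i => sum_nonneg fun s _ => mul_nonneg (hwt.nonneg i s) (hf0 i s)
    have hmB : ∀ i, m i ≤ B := by
      intro i
      calc m i ≤ ∑ s, wt i s * B :=
            sum_le_sum fun s _ => mul_le_mul_of_nonneg_left (hfB i s) (hwt.nonneg i s)
        _ = B := by rw [← sum_mul, hwt.one, one_mul]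
    have key := h1 I α Unit wt (fun _ => ()) univ (fun i s => (f i s - m i) / B) (fun _ _ => B)
      (fun _ => B) (fun i => (∑ s, wt i s * f i s ^ 2) / B ^ 2) Vr B L hwt
      (by
        intro i _ t
        have : (univ.filter fun s : α => (fun _ : α => ()) s = t) = univ := by
          ext; simp
        rw [this]
        have e : ∀ s, wt i s * ((f i s - m i) / B) = (wt i s * f i s - wt i s * m i) / B := by
          intro s; ring
        simp only [e]
        rw [← sum_div, sum_sub_distrib, ← sum_mul, hwt.one, one_mul]
        simp [hm])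
      (by
        intro i _ t
        have : (univ.filter fun s : α => (fun _ : α => ()) s = t) = univ := by
          ext; simp
        rw [this, hwt.one, mul_one]
        have e : ∀ s, wt i s * ((f i s - m i) / B) ^ 2 =
            (wt i s * f i s ^ 2 - 2 * m i * (wt i s * f i s) + wt i s * m i ^ 2) / B ^ 2 := by
          intro s; rw [div_pow]; ring
        simp only [e]
        rw [← sum_div, sum_add_distrib, sum_sub_distrib, ← mul_sum, ← sum_mul, hwt.one, one_mul]
        refine div_le_div_of_nonneg_right ?_ (by positivity)
        have : ∑ s, wt i s * f i s = m i := rfl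
        rw [this]
        nlinarith [sq_nonneg (m i)])
      (by
        intro i _ s
        rw [abs_div, abs_of_pos hBp, div_le_one hBp, abs_le]
        constructor <;> linarith [hf0 i s, hfB i s, hm0 i, hmB i])
      (by
        intro i _
        exact div_nonneg (sum_nonneg fun s _ => mul_nonneg (hwt.nonneg i s) (sq_nonneg _))
          (by positivity))
      (fun _ _ _ _ _ => rfl) (fun _ _ _ => (abs_of_pos hBp).le) (fun _ _ => le_rfl) hB
      (by
        refine le_trans (le_of_eq ?_) hV
        refine sum_congr rfl fun i _ => ?_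
        rw [mul_div_cancel₀]
        positivity) hL
    refine le_trans (le_of_eq ?_) key
    congr 1
    ext ω
    have e : ∑ i, B * ((f i (ω i) - m i) / B) = ∑ i, f i (ω i) - ∑ i, m i := by
      rw [← sum_sub_distrib]
      exact sum_congr rfl fun i _ => mul_div_cancel₀ _ hBp.ne'
    rw [Set.mem_ofPred_eq, Set.mem_ofPred_eq, e]

end Pool.Agent.NIB.H18
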