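import Pool.Agent.Helper82_NIB.Stmts

/-!
# NIB, module LLLW: symmetric local lemma for weighted product spaces
-/

set_option autoImplicit false

open Finset

namespace Pool.Agent.NIB.H18

open Pool.Agent.NIB

section

variable {I α : Type} [Fintype I] [DecidableEq I] [Fintype α]

/-- Independence of events that depend on disjoint sets of coordinates. -/
theorem Pr_inter {wt : I → α → ℝ} (h : IsWt wt) (W : Finset I) (A E : Set (I → α))
    (hA : ∀ ω ω' : I → α, (∀ v ∈ W, ω v = ω' v) → ω ∈ A → ω' ∈ A)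
    (hE : ∀ ω ω' : I → α, (∀ v, v ∉ W → ω v = ω' v) → ω ∈ E → ω' ∈ E) :
    Pr wt (A ∩ E) = Pr wt A * Pr wt E := by
  classical
  have hA' : ∀ ω ω' : I → α, (∀ v ∈ W, ω v = ω' v) → (ω ∈ A ↔ ω' ∈ A) := fun ω ω' hw =>
    ⟨hA ω ω' hw, hA ω' ω fun v hv => (hw v hv).symm⟩
  have hE' : ∀ ω ω' : I → α, (∀ v, v ∉ W → ω v = ω' v) → (ω ∈ E ↔ ω' ∈ E) := fun ω ω' hw =>
    ⟨hE ω ω' hw, hE ω' ω fun v hv => (hw v hv).symm⟩
  have e1 : Pr wt A * Pr wt E = ∑ p : (I → α) × (I → α),
      pw wt p.1 * pw wt p.2 * (A.indicator (fun _ => (1 : ℝ)) p.1 *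
        E.indicator (fun _ => (1 : ℝ)) p.2) := by
    rw [Pr, Pr, Ex, Ex, sum_mul_sum, Fintype.sum_prod_type]
    exact sum_congr rfl fun ω _ => sum_congr rfl fun ω' _ => by ring
  have e2 : Pr wt (A ∩ E) = ∑ p : (I → α) × (I → α),
      pw wt p.1 * pw wt p.2 * (A ∩ E).indicator (fun _ => (1 : ℝ)) p.1 := by
    rw [Fintype.sum_prod_type]
    have : ∀ ω : I → α, ∑ ω' : I → α, pw wt ω * pw wt ω' *
        (A ∩ E).indicator (fun _ => (1 : ℝ)) ω =
        pw wt ω * (A ∩ E).indicator (fun _ => (1 : ℝ)) ω := by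
      intro ω
      have e3 : ∀ ω' : I → α, pw wt ω * pw wt ω' * (A ∩ E).indicator (fun _ => (1 : ℝ)) ω =
          (pw wt ω * (A ∩ E).indicator (fun _ => (1 : ℝ)) ω) * pw wt ω' := by
        intro ω'; ring
      simp only [e3]
      rw [← mul_sum, sum_pw h, mul_one]
    simp only [this]
    rfl
  rw [e1, e2]
  let φ : (I → α) × (I → α) → (I → α) × (I → α) := fun p =>
    (W.piecewise p.1 p.2, W.piecewise p.2 p.1)
  have hφ : Function.Involutive φ := by
    rintro ⟨ω, ω'⟩
    simp only [φ, Prod.mk.injEq]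
    constructor <;> (funext v; by_cases hv : v ∈ W <;> simp [hv])
  refine Fintype.sum_equiv (Function.Involutive.toPerm φ hφ) _ _ fun p => ?_
  rw [Function.Involutive.coe_toPerm]
  have e4 : pw wt (φ p).1 * pw wt (φ p).2 = pw wt p.1 * pw wt p.2 := by
    simp only [pw, φ]
    rw [← prod_mul_distrib, ← prod_mul_distrib]
    refine prod_congr rfl fun i _ => ?_
    by_cases hi : i ∈ W
    · simp [hi]
    · simp [hi, mul_comm]
  rw [e4]
  congr 1
  -- `p = (ω, ω')`, `φ p = (ω on W, ω' off W; ...)`
  have e5 : ((φ p).1 ∈ A ↔ p.1 ∈ A) := hA' _ _ fun v hv => by simp [φ, hv]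
  have e6 : ((φ p).2 ∈ E ↔ p.1 ∈ E) := hE' _ _ fun v hv => by simp [φ, hv]
  by_cases h1 : p.1 ∈ A <;> by_cases h2 : p.1 ∈ E <;>
    simp [Set.indicator, h1, h2, e5, e6]

/-- The set of outcomes avoiding the events with index in `S`. -/
def av {ι : Type} (A : ι → Set (I → α)) (S : Finset ι) : Set (I → α) := {ω | ∀ j ∈ S, ω ∉ A j}

theorem Pr_union_bd {ι : Type} [DecidableEq ι] {wt : I → α → ℝ} (h : IsWt wt)
    (A : ι → Set (I → α)) (S1 S2 : Finset ι) :
    Pr wt (av A S2) ≤ Pr wt (av A (S1 ∪ S2)) + ∑ j ∈ S1, Pr wt (A j ∩ av A S2) := by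
  classical
  simp only [Pr]
  rw [← Ex_sum, ← Ex_add]
  refine Ex_mono h fun ω => ?_
  have hnn : ∀ j ∈ S1, 0 ≤ (A j ∩ av A S2).indicator (fun _ => (1 : ℝ)) ω := fun j _ =>
    Set.indicator_nonneg (fun _ _ => zero_le_one) ω
  have hnn' : 0 ≤ (av A (S1 ∪ S2)).indicator (fun _ => (1 : ℝ)) ω :=
    Set.indicator_nonneg (fun _ _ => zero_le_one) ω
  by_cases h2 : ω ∈ av A S2
  · rw [Set.indicator_of_mem h2]
    by_cases h3 : ω ∈ av A (S1 ∪ S2)
    · rw [Set.indicator_of_mem h3]
      have := sum_nonneg hnn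
      linarith
    · have h4 : ∃ j ∈ S1 ∪ S2, ω ∈ A j := by
        by_contra hc
        push Not at hc
        exact h3 hc
      obtain ⟨j, hj, hj2⟩ := h4
      rcases mem_union.mp hj with hj | hj
      · have h5 := single_le_sum hnn hj
        rw [Set.indicator_of_mem (show ω ∈ A j ∩ av A S2 from ⟨hj2, h2⟩)] at h5
        linarith
      · exact absurd hj2 (h2 j hj)
  · rw [Set.indicator_of_notMem h2]
    have := sum_nonneg hnn
    linarith

end

/-- module LLLW -/
theorem lllw : LllStmt := by
  classical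
  intro I α ι _ _ _ _ _ _ wt A W K1 K2 p hwt hA hW hV hK1 hK2 hp hpp
  have hKK : (1 : ℝ) ≤ (K1 : ℝ) * K2 := by
    have h1 : (1 : ℝ) ≤ K1 := by exact_mod_cast hK1
    have h2 : (1 : ℝ) ≤ K2 := by exact_mod_cast hK2
    nlinarith
  have key : ∀ n : ℕ, ∀ S : Finset ι, S.card ≤ n → 0 < Pr wt (av A S) ∧
      ∀ i, i ∉ S → Pr wt (A i ∩ av A S) ≤ 2 * p * Pr wt (av A S) := by
    intro n
    induction n using Nat.strong_induction_on with
    | _ n ih =>
    intro S hS
    constructor
    · rcases S.eq_empty_or_nonempty with rfl | ⟨j, hj⟩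
      · have : av A (∅ : Finset ι) = Set.univ := by
          ext ω; simp [av]
        rw [this]
        have : Pr wt (Set.univ : Set (I → α)) = 1 := by
          rw [Pr]
          simp only [Set.indicator_univ]
          exact Ex_const hwt 1
        rw [this]
        exact one_pos
      · have hlt : (S.erase j).card < S.card := card_erase_lt_of_mem hj
        obtain ⟨h1, h2⟩ := ih (S.erase j).card (lt_of_lt_of_le hlt hS) _ le_rfl
        have h3 := h2 j (notMem_erase _ _)
        have h4 := Pr_union_bd hwt A {j} (S.erase j)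
        rw [sum_singleton, ← insert_eq, insert_erase hj] at h4
        have hp0 : 0 ≤ p := (Pr_nonneg hwt _).trans (hp j)
        have hp2 : 2 * p ≤ 1 / 2 := by nlinarith
        nlinarith
    · intro i hi
      have hp0 : 0 ≤ p := (Pr_nonneg hwt _).trans (hp i)
      set S1 := S.filter (fun j => ¬ Disjoint (W j) (W i)) with hS1
      set S2 := S.filter (fun j => Disjoint (W j) (W i)) with hS2
      have hS12 : S1 ∪ S2 = S := by
        ext j
        simp only [hS1, hS2, mem_union, mem_filter]
        tauto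
      have hind := Pr_inter hwt (W i) (A i) (av A S2) (hA i) (by
        intro ω ω' hωω hω j hj hcon
        apply hω j hj
        refine hA j ω' ω ?_ hcon
        intro v hv
        have hd : Disjoint (W j) (W i) := (mem_filter.1 hj).2
        exact (hωω v (disjoint_left.1 hd hv)).symm)
      have h1 : Pr wt (A i ∩ av A S) ≤ Pr wt (A i ∩ av A S2) := by
        refine Pr_mono hwt fun ω hω => ⟨hω.1, fun j hj => hω.2 j (mem_filter.1 hj).1⟩
      have h2 : Pr wt (A i ∩ av A S2) ≤ p * Pr wt (av A S2) := by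
        rw [hind]
        exact mul_le_mul_of_nonneg_right (hp i) (Pr_nonneg hwt _)
      -- the number of neighbours
      have hcard : (S1.card : ℝ) ≤ (K1 : ℝ) * K2 := by
        have h3 : S1 ⊆ (W i).biUnion fun v => univ.filter fun j => v ∈ W j := by
          intro j hj
          have h4 := (mem_filter.1 hj).2
          rw [not_disjoint_iff] at h4
          obtain ⟨v, hv1, hv2⟩ := h4
          exact mem_biUnion.mpr ⟨v, hv2, mem_filter.mpr ⟨mem_univ _, hv1⟩⟩
        have h4 : S1.card ≤ K1 * K2 := by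
          refine (card_le_card h3).trans (card_biUnion_le.trans ?_)
          calc ∑ v ∈ W i, (univ.filter fun j => v ∈ W j).card ≤ ∑ v ∈ W i, K2 := by
                refine sum_le_sum fun v _ => ?_
                have := hV v
                rwa [Set.ncard_eq_toFinset_card', Set.toFinset_ofPred] at this
            _ = (W i).card * K2 := by rw [sum_const, smul_eq_mul]
            _ ≤ K1 * K2 := Nat.mul_le_mul_right _ (hW i)
        exact_mod_cast h4
      have h5 : Pr wt (av A S2) ≤ 2 * Pr wt (av A S) := by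
        rcases S1.eq_empty_or_nonempty with h6 | ⟨j0, hj0⟩
        · rw [h6, empty_union] at hS12
          rw [hS12]
          have := Pr_nonneg hwt (av A S)
          linarith
        · have hlt : S2.card < S.card := by
            apply card_lt_card
            rw [ssubset_iff_subset_ne]
            refine ⟨filter_subset _ _, fun he => ?_⟩
            have h7 : j0 ∈ S2 := by rw [he]; exact (mem_filter.1 hj0).1
            exact (mem_filter.1 hj0).2 (mem_filter.1 h7).2
          have h8 := (ih S2.card (lt_of_lt_of_le hlt hS) _ le_rfl).2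
          have h9 := Pr_union_bd hwt A S1 S2
          rw [hS12] at h9
          have h10 : ∑ j ∈ S1, Pr wt (A j ∩ av A S2) ≤ S1.card * (2 * p * Pr wt (av A S2)) := by
            rw [← nsmul_eq_mul]
            refine sum_le_card_nsmul _ _ _ fun j hj => ?_
            refine h8 j fun hj2 => ?_
            exact (mem_filter.1 hj).2 (mem_filter.1 hj2).2
          have h11 : (S1.card : ℝ) * (2 * p * Pr wt (av A S2)) ≤ 1 / 2 * Pr wt (av A S2) := by
            have h12 : (S1.card : ℝ) * (2 * p) ≤ 1 / 2 := by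
              calc (S1.card : ℝ) * (2 * p) ≤ (K1 : ℝ) * K2 * (2 * p) :=
                    mul_le_mul_of_nonneg_right hcard (by linarith)
                _ ≤ 1 / 2 := by linarith
            calc (S1.card : ℝ) * (2 * p * Pr wt (av A S2))
                = (S1.card : ℝ) * (2 * p) * Pr wt (av A S2) := by ring
              _ ≤ 1 / 2 * Pr wt (av A S2) :=
                  mul_le_mul_of_nonneg_right h12 (Pr_nonneg hwt _)
          linarith
      have h6 : p * Pr wt (av A S2) ≤ p * (2 * Pr wt (av A S)) := mul_le_mul_of_nonneg_left h5 hp0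
      linarith
  have h := (key (univ : Finset ι).card univ le_rfl).1
  rw [Pr, Ex] at h
  obtain ⟨ω, -, hω⟩ := exists_ne_zero_of_sum_ne_zero h.ne'
  have h1 := left_ne_zero_of_mul hω
  have h2 := right_ne_zero_of_mul hω
  refine ⟨ω, fun i => ?_, fun i hi => ?_⟩
  · rw [pw, prod_ne_zero_iff] at h1
    exact lt_of_le_of_ne (hwt.nonneg i _) (h1 i (mem_univ i)).symm
  · apply h2
    rw [Set.indicator_of_notMem]
    intro h3
    exact h3 i (mem_univ i) hi

end Pool.Agent.NIB.H18
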